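import Pool.Agent.helper70.FI.SpecQ1

/-!
# fib:QEV: the character of the image of an idempotent
-/

set_option autoImplicit false

namespace Pool.Agent.FI

open Pool.Agent.helper58.DC Pool.Agent.DI Pool.Agent.GR Pool.Agent.OB

theorem QEV_bij (H : Type) [Group H] (L : Subgroup H) :
    Set.BijOn (fun (ψ : H → ℂ) (l : L) => ψ (l : H)) (IrrOn L) (Irr L) := by
  classical
  refine ⟨fun ψ hψ => hψ.2, ?_, ?_⟩
  · intro ψ hψ ψ' hψ' he
    funext x
    by_cases hx : x ∈ L
    · exact congrFun he ⟨x, hx⟩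
    · rw [hψ.1 x hx, hψ'.1 x hx]
  · intro ψ hψ
    refine ⟨fun x => if hx : x ∈ L then ψ ⟨x, hx⟩ else 0, ⟨?_, ?_⟩, ?_⟩
    · intro g hg
      exact dif_neg hg
    · have e : (fun h : L => (fun x : H => if hx : x ∈ L then ψ ⟨x, hx⟩ else 0) (h : H)) = ψ := by
        funext h
        have h1 : (h : H) ∈ L := h.2
        show (if hx : (h : H) ∈ L then ψ ⟨(h : H), hx⟩ else 0) = ψ h
        rw [dif_pos h1]
      rw [e]
      exact hψ
    · funext h
      have h1 : (h : H) ∈ L := h.2
      show (if hx : (h : H) ∈ L then ψ ⟨(h : H), hx⟩ else 0) = ψ h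
      rw [dif_pos h1]

/-- A sum over the group of a function supported on the subgroup. -/
theorem QEV_sum {G : Type} [Group G] (H : Subgroup G) [Fintype H] (f : G → ℂ)
    (hf : ∀ x, x ∉ H → f x = 0) : ∑ᶠ x, f x = ∑ x : H, f (x : G) := by
  classical
  rw [← finsum_eq_sum_of_fintype]
  have h1 : ∑ᶠ g : H, f (g : G) = ∑ᶠ g ∈ (H : Set G), f g :=
    finsum_set_coe_eq_finsum_mem (H : Set G)
  rw [h1]
  refine finsum_congr fun g => ?_
  by_cases hg : g ∈ H
  · have : g ∈ (H : Set G) := hg
    simp [hg]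
  · rw [hf g hg]
    simp

theorem QEV (hQRP : QRP_stmt) : QEV_stmt := by
  classical
  intro G _ _ H H' hH i hi hii hinv χ' hχ'
  have := Fintype.ofFinite H
  obtain ⟨hχ0, V, _, _, _, ρ, hρ, hρc⟩ := hχ'
  have hch : ∀ x : H, ρ.character x = χ' (x : G) := fun x => congrFun hρc x
  -- the operator A
  set A : V →ₗ[ℂ] V := ∑ x : H, i (x : G) • ρ x with hA
  have hAA : A * A = A := by
    have h1 : ∀ z : H, i (z : G) = ∑ x : H, i (x : G) * i ((x⁻¹ * z : H) : G) := by
      intro z
      have h2 := congrFun hii (z : G)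
      unfold cv at h2
      rw [QEV_sum H _ (fun x hx => by rw [hi x hx, zero_mul])] at h2
      rw [← h2]
      refine Finset.sum_congr rfl fun x _ => ?_
      rw [Subgroup.coe_mul, Subgroup.coe_inv]
    have h3 : A = ∑ z : H, ∑ x : H, (i (x : G) * i ((x⁻¹ * z : H) : G)) • ρ z := by
      rw [hA]
      refine Finset.sum_congr rfl fun z _ => ?_
      rw [← Finset.sum_smul, ← h1 z]
    have h4 : A * A = ∑ x : H, ∑ z : H, (i (x : G) * i ((x⁻¹ * z : H) : G)) • ρ z := by
      rw [hA, Finset.sum_mul]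
      refine Finset.sum_congr rfl fun x _ => ?_
      rw [Finset.mul_sum]
      refine Fintype.sum_equiv (Equiv.mulLeft x) _ _ fun y => ?_
      rw [Equiv.coe_mulLeft, inv_mul_cancel_left, map_mul, smul_mul_smul_comm]
    rw [h4, Finset.sum_comm]
    exact h3.symm
  have hcom : ∀ s : H, (s : G) ∈ H' → ρ s * A = A * ρ s := by
    intro s hs
    rw [hA, Finset.mul_sum, Finset.sum_mul]
    refine Fintype.sum_equiv (MulAut.conj s).toEquiv _ _ fun x => ?_
    have h1 : i (((MulAut.conj s).toEquiv x : H) : G) = i (x : G) := by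
      have h2 : (((MulAut.conj s).toEquiv x : H) : G) = (s : G) * (x : G) * (s : G)⁻¹ := rfl
      rw [h2, hinv _ hs]
    have h3 : ρ ((MulAut.conj s).toEquiv x) * ρ s = ρ s * ρ x := by
      rw [← map_mul, ← map_mul]
      congr 1
      change s * x * s⁻¹ * s = s * x
      group
    rw [h1, smul_mul_assoc, h3, mul_smul_comm]
  have hAW : ∀ w ∈ LinearMap.range A, A w = w := by
    rintro w ⟨v, rfl⟩
    have := congrArg (fun f : V →ₗ[ℂ] V => f v) hAA
    exact this
  let inc : H' →* H := Subgroup.inclusion hH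
  have hst : ∀ s : H', ∀ w ∈ LinearMap.range A, ρ (inc s) w ∈ LinearMap.range A := by
    rintro s w ⟨v, rfl⟩
    refine ⟨ρ (inc s) v, ?_⟩
    have h1 := congrArg (fun f : V →ₗ[ℂ] V => f v) (hcom (inc s) s.2)
    exact h1.symm
  -- the representation of H' on the range
  let σ : Representation ℂ H' (LinearMap.range A) :=
    { toFun := fun s => (ρ (inc s)).restrict (hst s)
      map_one' := by
        ext w
        simp [LinearMap.restrict_apply]
      map_mul' := fun s t => by
        ext w
        simp [LinearMap.restrict_apply] }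
  obtain ⟨m, hm⟩ := hQRP H' (LinearMap.range A) σ
  have hcharσ : ∀ s : H', σ.character s = ev χ' i (s : G) := by
    intro s
    have h1 : σ s = ((ρ (inc s)) * A).restrict
        (p := LinearMap.range A) (q := LinearMap.range A) (fun w hw => by
          have h2 : ((ρ (inc s)) * A) w = ρ (inc s) w := by
            change ρ (inc s) (A w) = ρ (inc s) w
            rw [hAW w hw]
          rw [h2]
          exact hst s w hw) := by
      ext w
      change ρ (inc s) (w : V) = ρ (inc s) (A (w : V))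
      rw [hAW (w : V) w.2]
    have h3 : ∀ v, ((ρ (inc s)) * A) v ∈ LinearMap.range A := fun v =>
      hst s (A v) ⟨v, rfl⟩
    have h4 : σ.character s = LinearMap.trace ℂ V ((ρ (inc s)) * A) := by
      change LinearMap.trace ℂ (LinearMap.range A) (σ s) = _
      rw [h1]
      exact LinearMap.trace_restrict_eq_of_forall_mem (LinearMap.range A) ((ρ (inc s)) * A) h3
    have h5 : LinearMap.trace ℂ V ((ρ (inc s)) * A) = ∑ x : H, i (x : G) * χ' ((s : G) * (x : G)) := by
      rw [hA, Finset.mul_sum, map_sum]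
      refine Finset.sum_congr rfl fun x _ => ?_
      rw [mul_smul_comm, map_smul, ← map_mul, smul_eq_mul]
      congr 1
      exact hch (inc s * x)
    rw [h4, h5]
    unfold ev
    rw [QEV_sum H _ (fun x hx => by rw [hi x hx, zero_mul])]
  refine ⟨fun ψ => m (fun l : H' => ψ (l : G)), fun x hx => ?_⟩
  have h1 := hm ⟨x, hx⟩
  have h2 := hcharσ ⟨x, hx⟩
  have h2' : σ.character ⟨x, hx⟩ = ev χ' i x := h2
  rw [← h2', h1]
  symm
  refine finsum_mem_eq_of_bijOn (fun (ψ : G → ℂ) (l : H') => ψ (l : G)) (QEV_bij G H') ?_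
  intro ψ _
  rfl

end Pool.Agent.FI
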